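import Mathlib
import Pool.Agent.Results.MP_3bc45c_nt.RecordGapsAtPrescribedPlaces
import Pool.Agent.helper159_BO.Fin

set_option autoImplicit false

/-!
# Record prime gaps around integers in a residue class to a large modulus and with `α n` close to `β` modulo one

Let `f(x) = log x (log₂ x)² log₄ x / (log₃ x)²` (iterated natural logarithms), the size of the largest gaps between
consecutive primes that are known to occur up to `x`. The starting files locate gaps of this size around integers of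
a given residue class to a large modulus (`MP_3bc45c_nt.RecordGapsAtPrescribedPlaces`), and around integers `n`
with `‖α n - β‖` small for a fixed irrational `α` (`MP_7b323f_nt.WellApproximatedGapCentres`). We prove a common
generalisation, uniform in `α` (which may depend on `x`, and may be rational) and `m`: in EVERY interval `(M, M + x]`
there is an integer `n ≡ b (mod m)` with `‖α n - β‖ ≤ x^ε / q` in the middle of a record gap, whenever `α m` has a
rational approximation `a/q` in lowest terms with `|α m - a/q| ≤ 1/q²` and `q m ≤ x^(1 - ε)`. If `‖h α‖ ≥ c₀/h`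
for `1 ≤ h ≤ x`, then `‖α n - β‖ ≤ m² x^(-1 + ε)` can be reached.

Proof. By Bezout's identity there is `q' ≤ q` prime to `q` with `‖q' α m‖ ≤ 2/q`. On the average over `s, t ≤ x^(ε/8)`
the number `D = s q + t q'` has few prime factors; so we find one with `∑ 1/p ≤ 1/2` over the primes `p > 16`
dividing `D` and `∑ 1/p ≤ 1/log log y` over those beyond the threshold of the record sieve in intervals of length
`y = q m x^(ε/2)`. Then `m D` is an admissible modulus in the theorem on residue classes to large moduli, and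
`‖α n - β‖` hardly changes along the progression of difference `m D` and length `y`.
-/

namespace Pool.Agent.Results.MP_3bc45c_nt.BohrSetsAndLargeModuli

/-- The record scale `f(x) = log x (log₂ x)² log₄ x / (log₃ x)²` (iterated natural logarithms). -/
noncomputable def f (x : ℝ) : ℝ :=
  Real.log x * (Real.log (Real.log x)) ^ 2 * Real.log (Real.log (Real.log (Real.log x))) /
    (Real.log (Real.log (Real.log x))) ^ 2

/-- The sum of the reciprocals of the prime factors `p > log log x` of `m` is at most `A / log log x`. -/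
def FewPrimes (A x : ℝ) (m : ℕ) : Prop :=
  (∑ p ∈ m.primeFactors with Real.log (Real.log x) < ((p : ℕ) : ℝ), 1 / ((p : ℕ) : ℝ)) ≤
    A / Real.log (Real.log x)

/-- For `ε > 0` and `A ≥ 0` there are `κ > 0` and `x₀` such that for all `x ≥ x₀` and all `m ≥ 1` with
`FewPrimes A x m`: if `α` is real, `a/q` is in lowest terms, `|α m - a/q| ≤ 1/q²` and `q m ≤ x^(1 - ε)`, then
for all `β, b, M` there is `n ≡ b (mod m)` with `M < n ≤ M + x`, `‖α n - β‖ ≤ x^ε / q` and
`|p - n| > κ (φ(m)/m) f(x)` for every prime `p`. Moreover, for every `c₀ > 0` there are such `κ` and `x₀` that,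
if `m ≤ x^(1 - ε)` and `|h α - a| ≥ c₀ / h` for all integers `1 ≤ h ≤ x` and `a`, then for all `β, b, M` there is
such an `n` with `‖α n - β‖ ≤ m² x^(-1 + ε)`. -/
theorem result (ε A : ℝ) (hε : 0 < ε) (hA : 0 ≤ A) :
    (∃ κ : ℝ, 0 < κ ∧ ∃ x₀ : ℝ, ∀ x : ℝ, x₀ ≤ x → ∀ m : ℕ, 1 ≤ m → FewPrimes A x m →
      ∀ (α β : ℝ) (a : ℤ) (q b M : ℕ), 1 ≤ q → IsCoprime a (q : ℤ) → (q : ℝ) * m ≤ x ^ (1 - ε) →
      |α * m - a / q| ≤ 1 / (q : ℝ) ^ 2 →
      ∃ n : ℕ, n ≡ b [MOD m] ∧ M < n ∧ (n : ℝ) ≤ M + x ∧ (∃ h : ℤ, |α * n - β - h| ≤ x ^ ε / q) ∧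
        ∀ p : ℕ, p.Prime → κ * ((Nat.totient m : ℝ) / m) * f x < |(p : ℝ) - n|) ∧
    (∀ c₀ : ℝ, 0 < c₀ → ∃ κ : ℝ, 0 < κ ∧ ∃ x₀ : ℝ, ∀ x : ℝ, x₀ ≤ x → ∀ m : ℕ, 1 ≤ m → FewPrimes A x m →
      (m : ℝ) ≤ x ^ (1 - ε) → ∀ (α β : ℝ) (b M : ℕ),
      (∀ h : ℕ, 1 ≤ h → (h : ℝ) ≤ x → ∀ a : ℤ, c₀ / h ≤ |h * α - a|) →
      ∃ n : ℕ, n ≡ b [MOD m] ∧ M < n ∧ (n : ℝ) ≤ M + x ∧
        (∃ h : ℤ, |α * n - β - h| ≤ (m : ℝ) ^ 2 * x ^ (-1 + ε)) ∧
        ∀ p : ℕ, p.Prime → κ * ((Nat.totient m : ℝ) / m) * f x < |(p : ℝ) - n|) := by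
  have hb : Pool.Agent.helper159_ZK.Base :=
    Pool.Agent.Results.MP_3bc45c_nt.RecordGapsAtPrescribedPlaces.result
  constructor
  · obtain ⟨κ, hκ, x₀, -, h⟩ := Pool.Agent.helper159_BO.general hb ε A hε hA
    exact ⟨κ, hκ, x₀, h⟩
  · intro c₀ hc₀
    obtain ⟨κ, hκ, x₀, -, h⟩ := Pool.Agent.helper159_BO.badly hb c₀ ε A hc₀ hε hA
    exact ⟨κ, hκ, x₀, h⟩

end Pool.Agent.Results.MP_3bc45c_nt.BohrSetsAndLargeModuli
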