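import Pool.Agent.H763_mp.JKer

set_option autoImplicit false

/-! # Simultaneous record prime gaps around the residues of several polynomials modulo a prime

Let `φ_1, ..., φ_r` be polynomials of degree at most `D` over the field with `P` elements such that no
nontrivial linear combination has degree less than `2`, let `A, B` be arbitrary sets of residues with
`|A| |B| ≥ P ^ (1 + ε)` and let `f_j, g_j` be arbitrary functions.  If the prime `P` is large in terms
of `r`, `ε` and `D`, there are `a ∈ A` and `b ∈ B` such that no prime lies within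
`κ log P (log₂ P)² log₄ P / (log₃ P)²` of any of the least residues of
`φ_j (a + b) + f_j a + g_j b`, `j = 1, ..., r`.

Examples: every interval of length `P ^ (1 / 2 + ε)` contains an `n` for which the least residues of
`n ^ 2, ..., n ^ D` have this property (`A`, `B` intervals, `f_j = g_j = 0`); products `a b` of elements
of two arbitrary sets (`r = 1`, `φ = x ^ 2 / 2`).

Proof: Fourier inversion and Weil's bound (`Y951/WP` of the starting files) for the exponential sums over
`A × B`; a joint discrepancy bound and the joint covering criterion of the starting files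
(`Y961/JR/Disc.lean`, `Y961/JR/Crit.lean`), brought to residues modulo `P` in `H763_mp/JCrt.lean`. -/

namespace Pool.Agent.Results.MP_3bc45c_nt.PolynomialsModuloPrimes

open Polynomial

theorem result (r : ℕ) (hr : 1 ≤ r) (ε : ℝ) (hε : 0 < ε) (D : ℕ) : ∃ κ : ℝ, 0 < κ ∧ ∃ P₀ : ℕ,
    ∀ P : ℕ, P₀ ≤ P → ∀ [Fact P.Prime], ∀ φ : Fin r → (ZMod P)[X], (∀ j, (φ j).natDegree ≤ D) →
    (∀ k : Fin r → ZMod P, k ≠ 0 → 2 ≤ (∑ j, C (k j) * φ j).natDegree) →
    ∀ A B : Finset (ZMod P), (P : ℝ) ^ (1 + ε) ≤ (A.card : ℝ) * (B.card : ℝ) →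
    ∀ f g : Fin r → ZMod P → ZMod P, ∃ a ∈ A, ∃ b ∈ B, ∀ j, ∀ q : ℕ, q.Prime →
      κ * (Real.log P * (Real.log (Real.log P)) ^ 2 *
        Real.log (Real.log (Real.log (Real.log P))) / (Real.log (Real.log (Real.log P))) ^ 2) <
          |(q : ℝ) - (((φ j).eval (a + b) + f j a + g j b).val : ℝ)| :=
  Pool.Agent.H763_mp.polys r hr ε hε D

end Pool.Agent.Results.MP_3bc45c_nt.PolynomialsModuloPrimes
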