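import Pool.Agent.helper306_gaps.Final

/-!
# Gaps between the primes left by random deletion

Every large prime `p` is deleted, independently of the others, with probability `exp (-lam p)`.
Here `lam` varies slowly and `lam x = x ^ (-θ + o(1))`, `0 ≤ θ < 1`.  For `θ = 0` this includes
`lam = log (1 / δ)`: each prime is deleted with the fixed probability `δ`, which may be as small
as we please, and even `δ` tending to `0` like `x ^ (-o(1))`; for `lam x = x ^ (-θ)` each prime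
`p` is kept with probability about `p ^ (-θ)`.  Almost surely the largest gap between the
remaining primes up to `X` is at least `(1 - θ - ε) (log X) ^ 2 / lam X`, the largest number of
primes lost in a gap is asymptotic to `(1 - θ) log X / lam X`, and for `θ` close to `1` the
largest gap has exactly the order `(log X) ^ 2 / lam X`.
-/

open Filter Topology MeasureTheory ProbabilityTheory

namespace Pool.Agent.Results.MP_3bc45c_nt.RandomlyThinnedPrimes

/-- `q < q'` are consecutive elements of the set `R`. -/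
def Consecutive (R : Set ℕ) (q q' : ℕ) : Prop :=
  q ∈ R ∧ q' ∈ R ∧ q < q' ∧ ∀ m, q < m → m < q' → m ∉ R

/-- The number of primes `p` with `q < p < q'`. -/
def lost (q q' : ℕ) : ℕ := ((Finset.Ioo q q').filter Nat.Prime).card

/-- `lam` is positive, `lam x = x ^ (-θ + o(1))`, `lam x = o(log x)`, and `lam y / lam x` is close
to `1` for large `x` when `y / x` is close to `1`, `y ≥ x`. -/
structure Regular (lam : ℕ → ℝ) (θ : ℝ) : Prop where
  pos : ∀ m, 0 < lam m
  idx : Tendsto (fun m : ℕ => Real.log (lam m) / Real.log m) atTop (𝓝 (-θ))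
  small : Tendsto (fun m : ℕ => lam m / Real.log m) atTop (𝓝 0)
  slow : ∀ ε : ℝ, 0 < ε → ∃ η : ℝ, 0 < η ∧ ∀ᶠ x : ℕ in atTop, ∀ y : ℕ, x ≤ y →
    (y : ℝ) ≤ (1 + η) * x → |lam y - lam x| ≤ ε * lam x

/-- **Gaps in randomly thinned primes.** `Q` is a random set of primes from which every large
prime `p` is missing with probability `exp (-lam p)`, independently of the others. -/
theorem result : ∃ δ C : ℝ, 0 < δ ∧ δ < 1 ∧ 0 < C ∧
    ∀ (Ω : Type*) (_ : MeasurableSpace Ω) (μ : Measure Ω) (_ : IsProbabilityMeasure μ)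
      (θ : ℝ) (lam : ℕ → ℝ), 0 ≤ θ → θ < 1 → Regular lam θ →
      ∀ (Q : Ω → Set ℕ), (∀ ω, ∀ m ∈ Q ω, m.Prime) → (∀ m, MeasurableSet {ω | m ∈ Q ω}) →
      iIndepSet (fun m => {ω | m ∈ Q ω}) μ → ∀ p₀ : ℕ,
      (∀ p : ℕ, p.Prime → p₀ ≤ p → μ {ω | p ∉ Q ω} = ENNReal.ofReal (Real.exp (-lam p))) →
      ∀ᵐ ω ∂μ, ∀ ε : ℝ, 0 < ε →
        (∀ᶠ X : ℕ in atTop, ∃ q q', Consecutive (Q ω) q q' ∧ X < q ∧ (q' : ℝ) ≤ (1 + ε) * X ∧
          (1 - θ - ε) * Real.log X ^ 2 / lam X ≤ (q' : ℝ) - q) ∧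
        (∀ᶠ X : ℕ in atTop, ∃ q q', Consecutive (Q ω) q q' ∧ X < q ∧ (q' : ℝ) ≤ (1 + ε) * X ∧
          (1 - θ - ε) * Real.log X / lam X ≤ (lost q q' : ℝ)) ∧
        (∀ᶠ q : ℕ in atTop, ∀ q', Consecutive (Q ω) q q' →
          (lost q q' : ℝ) ≤ (1 - θ + ε) * Real.log q / lam q) ∧
        (1 - δ < θ → ∀ᶠ q : ℕ in atTop, ∀ q', Consecutive (Q ω) q q' →
          (q' : ℝ) - q ≤ C * Real.log q ^ 2 / lam q) := by
  obtain ⟨δ, C, h1, h2, h3, h4⟩ := Pool.Agent.helper306_gaps.thinned_gaps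
  refine ⟨δ, C, h1, h2, h3, ?_⟩
  intro Ω mΩ μ hμ θ lam a1 a2 a3
  exact h4 Ω mΩ μ hμ θ lam a1 a2 ⟨a3.pos, a3.idx, a3.small, a3.slow⟩

end Pool.Agent.Results.MP_3bc45c_nt.RandomlyThinnedPrimes
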