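import Pool.Agent.H436.RG.Main

set_option autoImplicit false

/-!
# Record prime gaps around places where prescribed sets contain no square-free (`k`-free) numbers

Let `f(x) = log x (log₂ x)² log₄ x / (log₃ x)²` (iterated natural logarithms), the order of the largest gaps between
consecutive primes known from the starting files (`MP_3bc45c_nt.RecordGaps`), and `k ≥ 2`, `0 < ε ≤ 1`,
`c < ε ζ(k) / k`. We show that there is `κ > 0` such that for every large `M` and EVERY set `I` of at most
`c log M / log log M` integers some `n` in the short interval `(M, M + M^ε]` has no primes within `κ f(M)`, while each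
of the numbers `n + i`, `i ∈ I`, is divisible by the `k`-th power of a prime.

For `ε = 1`, `k = 2` and an interval `I` around `0` this puts a gap between square-free numbers of length
`(π² / 12 - η) log M / log log M` (half of what Erdős proved in 1951 for such gaps alone) into the middle of a prime gap
of the record order: the two kinds of gaps occur at the same place.

Proof. Pigeonhole: a residue class of `n` modulo the `k`-th powers of the primes of a fixed finite set `P` makes all but
`|I| ∏ (1 - p^(-k))` of the `n + i` divisible by such a power, for every set `I`. Each of the remaining positions gets a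
prime `q_i` in `(log M, 8 log M]` of its own. The product `d` of all these `k`-th powers is at most `M^(ε (1 - δ))`, and
the sum of the `1 / q_i` is `O(1 / log log M)`, so that the modulus `d` satisfies the condition of
`MP_3bc45c_nt.RecordGapsAtPrescribedPlaces` and `φ(d) / d` is bounded below.
-/

namespace Pool.Agent.Results.MP_3bc45c_nt.SquarefreeGapsInRecordGaps

/-- The record scale `f(x) = log x (log₂ x)² log₄ x / (log₃ x)²` (iterated natural logarithms). -/
noncomputable def f (x : ℝ) : ℝ :=
  Real.log x * (Real.log (Real.log x)) ^ 2 * Real.log (Real.log (Real.log (Real.log x))) /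
    (Real.log (Real.log (Real.log x))) ^ 2

/-- `ζ(k)`, the sum of all `1 / n^k`, `n ≥ 1`. -/
noncomputable def zeta (k : ℕ) : ℝ := ∑' n : ℕ, 1 / ((n : ℝ) + 1) ^ k

/-- For `k ≥ 2`, `0 < ε ≤ 1` and `c < ε ζ(k) / k` there are `κ > 0` and `M₀` such that for all `M ≥ M₀` and for every set
`I` of at most `c log M / log log M` integers there is an integer `n` with `M < n ≤ M + M^ε`, with `|p - n| > κ f(M)`
for every prime `p`, and such that each `n + i`, `i ∈ I`, is divisible by the `k`-th power of a prime. -/
theorem result (k : ℕ) (hk : 2 ≤ k) (ε c : ℝ) (hε : 0 < ε) (hε1 : ε ≤ 1) (hc : c < ε * zeta k / k) :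
    ∃ κ : ℝ, 0 < κ ∧ ∃ M₀ : ℕ, ∀ M : ℕ, M₀ ≤ M → ∀ I : Finset ℤ,
      (I.card : ℝ) ≤ c * Real.log M / Real.log (Real.log M) →
      ∃ n : ℕ, M < n ∧ (n : ℝ) ≤ M + (M : ℝ) ^ ε ∧
        (∀ p : ℕ, p.Prime → κ * f M < |(p : ℝ) - n|) ∧
        ∀ i ∈ I, ∃ q : ℕ, q.Prime ∧ (q : ℤ) ^ k ∣ n + i := by
  obtain ⟨κ, hκ, M₀, h⟩ := Pool.Agent.H436.RG.main k hk ε c hε hε1 (by
    rw [zeta] at hc
    rwa [div_mul_eq_mul_div])
  refine ⟨κ, hκ, M₀, fun M hM I hI => ?_⟩
  obtain ⟨n, h1, h2, h3, h4⟩ := h M hM I (by rwa [← mul_div_assoc])
  refine ⟨n, h1, h2, h4, fun i hi => ?_⟩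
  obtain ⟨q, hq, hd⟩ := h3 i hi
  exact ⟨q, hq, by exact_mod_cast hd⟩

end Pool.Agent.Results.MP_3bc45c_nt.SquarefreeGapsInRecordGaps
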